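import Mathlib

set_option autoImplicit false

/-!
# Uni-rule programs with internally delocalized odd cycles have stable models

Let `P` be a finite normal logic program in which every atom is the head of at most one rule. If every
odd cycle of the atom dependency graph has an internal delocalizing triple, then `P` has a stable
model.

Proof. (1) In a uni-rule program the atoms whose positive dependencies are not well founded are false
in every stable model; on the other atoms `W` it is enough to find a fixed point of the AND-NOT
network of `P` restricted to `W`. (2) For every `W` such a fixed point exists. In a minimal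
counterexample no nonempty partial assignment is closed (justifies itself). Fix `v` to be false and
take a fixed point `x` of the rest; all literals in the rule of `v` are true at `x`. As the parts which
do not depend on `v` would be closed, there is a rank function `τ` with `τ v = 0` such that an atom
`i ≠ v` which is true has a predecessor of smaller rank, and all predecessors of a false atom `i ≠ v`
whose literals are false have smaller rank. Going back from a predecessor of `v`, always to a
predecessor of minimal rank, we find an odd cycle such that all other arcs between its atoms are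
literals which are true at `x`. So it has no internal delocalizing triple.
-/

namespace Pool.Agent.Results.MP_d24a2a_lc.StableModel

open Finset

/-- A ground normal rule `head ← pos, not neg`. -/
structure Rule (A : Type) where
  head : A
  pos : Finset A
  neg : Finset A

section defs

variable {A : Type}

/-- Every atom is the head of at most one rule. (Programs are sets of rules; they are finite, since
the set `A` of atoms is finite.) -/
def UniRule (P : Set (Rule A)) : Prop := ∀ r ∈ P, ∀ r' ∈ P, r.head = r'.head → r = r'

/-- `X` is a model of the reduct `P^M`. -/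
def IsModelOfReduct (P : Set (Rule A)) (M X : Set A) : Prop :=
  ∀ r ∈ P, (∀ b ∈ r.neg, b ∉ M) → (∀ a ∈ r.pos, a ∈ X) → r.head ∈ X

/-- `M` is a stable model: the least model of the reduct `P^M`. -/
def Stable (P : Set (Rule A)) (M : Set A) : Prop :=
  IsModelOfReduct P M M ∧ ∀ X, IsModelOfReduct P M X → M ⊆ X

/-- The signed arcs of the atom dependency graph, `s = true` for positive arcs. -/
def Arc (P : Set (Rule A)) (s : Bool) (u v : A) : Prop :=
  ∃ r ∈ P, r.head = v ∧ if s then u ∈ r.pos else u ∈ r.neg

/-- An elementary directed cycle `c 0 → c 1 → ... → c n → c 0` with signs. -/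
structure Cycle (P : Set (Rule A)) (n : ℕ) where
  c : Fin (n + 1) → A
  s : Fin (n + 1) → Bool
  inj : Function.Injective c
  arc : ∀ i, Arc P (s i) (c i) (c (i + 1))

variable {P : Set (Rule A)} {n : ℕ}

/-- The cycle has an odd number of negative arcs. -/
def Cycle.IsOdd (C : Cycle P n) : Prop := Odd (univ.filter fun i => C.s i = false).card

/-- The vertex set. -/
def Cycle.V (C : Cycle P n) : Set A := Set.range C.c

/-- The set of signed arcs of the cycle. -/
def Cycle.E (C : Cycle P n) (s : Bool) (u v : A) : Prop := ∃ i, C.c i = u ∧ C.c (i + 1) = v ∧ C.s i = s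

/-- `(u, v₁, v₂)` is a delocalizing triple of `C`. -/
def Cycle.Deloc (C : Cycle P n) (u v₁ v₂ : A) : Prop :=
  v₁ ≠ v₂ ∧ v₁ ∈ C.V ∧ v₂ ∈ C.V ∧ (Arc P true u v₁ ∧ ¬ C.E true u v₁) ∧
    (Arc P false u v₂ ∧ ¬ C.E false u v₂)

end defs

section network

variable {A : Type} [DecidableEq A] {P : Set (Rule A)}

/-- The atom `i` has a rule. -/
def HasRule (P : Set (Rule A)) (i : A) : Prop := ∃ r ∈ P, r.head = i

/-- The body of the rule of `i`, restricted to `W`, is true. -/
def Val (P : Set (Rule A)) (W : Finset A) (x : A → Bool) (i : A) : Prop :=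
  HasRule P i ∧ ∀ j ∈ W, ∀ s, Arc P s j i → x j = s

/-- Fixed points of the network restricted to `W`. -/
def FP (P : Set (Rule A)) (W : Finset A) (x : A → Bool) : Prop :=
  ∀ i ∈ W, (x i = true ↔ Val P W x i)

/-- The value of `i` is justified by the values in `B`. -/
def Just (P : Set (Rule A)) (W B : Finset A) (a : A → Bool) (i : A) : Prop :=
  (a i = true ∧ HasRule P i ∧ ∀ j ∈ W, ∀ s, Arc P s j i → j ∈ B ∧ a j = s) ∨
    (a i = false ∧ (¬ HasRule P i ∨ ∃ j ∈ B, ∃ s, Arc P s j i ∧ a j ≠ s))

theorem ext {W : Finset A} (IH : ∀ W' : Finset A, W' ⊂ W → ∃ x, FP P W' x) (E : Finset A) (d : ℕ) :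
    ∀ (B : Finset A) (a : A → Bool), B ⊆ W → E ⊆ B → B.Nonempty → (W \ B).card = d →
      (∀ i ∈ B, i ∉ E → Just P W B a i) →
      ∃ x : A → Bool, (∀ i ∈ B, x i = a i) ∧ ∀ i ∈ W, i ∉ E → (x i = true ↔ Val P W x i) := by
  induction d using Nat.strong_induction_on with
  | _ d ih =>
    intro B a hBW hEB hne hcard hJ
    by_cases h : ∃ w ∈ W \ B, ∃ j ∈ B, ∃ s, Arc P s j w ∧ a j ≠ s
    · obtain ⟨w, hw, j, hj, s, harc, hjs⟩ := h
      rw [mem_sdiff] at hw
      have hne' : ∀ i ∈ B, i ≠ w := fun i hi e => hw.2 (e ▸ hi)
      have hupd : ∀ i ∈ B, Function.update a w false i = a i := fun i hi =>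
        Function.update_of_ne (hne' i hi) _ _
      have hcard' : (W \ insert w B).card < d := by
        rw [← hcard]
        refine card_lt_card ⟨fun i hi => ?_, fun hsub => ?_⟩
        · rw [mem_sdiff, mem_insert] at hi
          rw [mem_sdiff]
          exact ⟨hi.1, fun h => hi.2 (Or.inr h)⟩
        · have := hsub (mem_sdiff.2 hw)
          rw [mem_sdiff, mem_insert] at this
          exact this.2 (Or.inl rfl)
      obtain ⟨x, hx1, hx2⟩ := ih _ hcard' (insert w B) (Function.update a w false)
        (insert_subset hw.1 hBW) (hEB.trans (subset_insert _ _)) (insert_nonempty _ _) rfl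
        (fun i hi hiE => by
          rw [mem_insert] at hi
          rcases hi with rfl | hi
          · right
            refine ⟨Function.update_self _ _ _, Or.inr ⟨j, mem_insert_of_mem hj, s, harc, ?_⟩⟩
            rw [hupd j hj]
            exact hjs
          · rcases hJ i hi hiE with ⟨h1, h2, h3⟩ | ⟨h1, h2⟩
            · left
              refine ⟨by rw [hupd i hi]; exact h1, h2, fun k hk s' hs' => ?_⟩
              obtain ⟨h4, h5⟩ := h3 k hk s' hs'
              exact ⟨mem_insert_of_mem h4, by rw [hupd k h4]; exact h5⟩
            · right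
              refine ⟨by rw [hupd i hi]; exact h1, ?_⟩
              rcases h2 with h2 | ⟨k, hk, s', hs', hks⟩
              · exact Or.inl h2
              · exact Or.inr ⟨k, mem_insert_of_mem hk, s', hs', by rw [hupd k hk]; exact hks⟩)
      exact ⟨x, fun i hi => by rw [hx1 i (mem_insert_of_mem hi), hupd i hi], hx2⟩
    · have h' : ∀ w ∈ W, w ∉ B → ∀ j ∈ B, ∀ s, Arc P s j w → a j = s := by
        intro w hw hwB j hj s harc
        by_contra hne
        exact h ⟨w, mem_sdiff.2 ⟨hw, hwB⟩, j, hj, s, harc, hne⟩
      obtain ⟨x', hx'⟩ := IH (W \ B) (by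
        refine ⟨sdiff_subset, fun hsub => ?_⟩
        obtain ⟨b, hb⟩ := hne
        have := hsub (hBW hb)
        rw [mem_sdiff] at this
        exact this.2 hb)
      let x : A → Bool := fun i => if i ∈ B then a i else x' i
      have e1 : ∀ i ∈ B, x i = a i := fun i hi => if_pos hi
      have e2 : ∀ i, i ∉ B → x i = x' i := fun i hi => if_neg hi
      refine ⟨x, e1, fun i hi hiE => ?_⟩
      by_cases hiB : i ∈ B
      · rw [e1 i hiB]
        rcases hJ i hiB hiE with ⟨h1, h2, h3⟩ | ⟨h1, h2⟩
        · refine ⟨fun _ => ⟨h2, fun j hj s hs => ?_⟩, fun _ => h1⟩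
          obtain ⟨h4, h5⟩ := h3 j hj s hs
          rw [e1 j h4]
          exact h5
        · refine ⟨fun h3 => ?_, fun h3 => ?_⟩
          · rw [h1] at h3
            exact absurd h3 (by simp)
          · rcases h2 with h2 | ⟨j, hj, s, hs, hjs⟩
            · exact absurd h3.1 h2
            · have := h3.2 j (hBW hj) s hs
              rw [e1 j hj] at this
              exact absurd this hjs
      · rw [e2 i hiB, hx' i (mem_sdiff.2 ⟨hi, hiB⟩)]
        constructor
        · rintro ⟨h1, h2⟩
          refine ⟨h1, fun j hj s hs => ?_⟩
          by_cases hjB : j ∈ B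
          · rw [e1 j hjB]
            exact h' i hi hiB j hjB s hs
          · rw [e2 j hjB]
            exact h2 j (mem_sdiff.2 ⟨hj, hjB⟩) s hs
        · rintro ⟨h1, h2⟩
          refine ⟨h1, fun j hj s hs => ?_⟩
          rw [mem_sdiff] at hj
          have := h2 j hj.1 s hs
          rw [e2 j hj.2] at this
          exact this

/-- the predecessor relation on the way back to `v` -/
def Pr (P : Set (Rule A)) (W : Finset A) (v : A) (x : A → Bool) (τ : A → ℕ) (j i : A) : Prop :=
  j ∈ W ∧ i ∈ W ∧ i ≠ v ∧ Arc P (x j == x i) j i ∧ τ j < τ i ∧
    ∀ u ∈ W, ∀ s, Arc P s u i → x u ≠ s → τ j ≤ τ u ∧ τ u < τ i ∧ s = (x u == x i)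

theorem parity (x : ℕ → Bool) (n : ℕ) :
    (Odd (∑ k ∈ range n, if (x k == x (k + 1)) = false then 1 else 0)) ↔ x 0 ≠ x n := by
  induction n with
  | zero => simp
  | succ n ih =>
    rw [sum_range_succ]
    rcases h1 : x n <;> rcases h2 : x (n + 1) <;> rcases h0 : x 0 <;>
      simp [h1, h0, Nat.odd_add_one] at ih ⊢ <;> simpa using ih

theorem exists_path {W : Finset A} {v : A} {x : A → Bool} {τ : A → ℕ}
    (hpred : ∀ i ∈ W, i ≠ v → ∃ j, Pr P W v x τ j i) (t : ℕ) :
    ∀ i ∈ W, τ i = t → ∃ (n : ℕ) (c : ℕ → A), c 0 = v ∧ c n = i ∧ (∀ k ≤ n, c k ∈ W) ∧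
      ∀ k < n, Pr P W v x τ (c k) (c (k + 1)) := by
  induction t using Nat.strong_induction_on with
  | _ t ih =>
    intro i hi hτ
    by_cases hiv : i = v
    · exact ⟨0, fun _ => i, hiv, rfl, fun _ _ => hi, fun k hk => absurd hk (Nat.not_lt_zero k)⟩
    · obtain ⟨j, hj⟩ := hpred i hi hiv
      have hlt : τ j < t := by rw [← hτ]; exact hj.2.2.2.2.1
      obtain ⟨n, c, h1, h2, h3, h4⟩ := ih (τ j) hlt j hj.1 rfl
      refine ⟨n + 1, fun k => if k ≤ n then c k else i, by simp [h1], by simp, fun k hk => ?_,
        fun k hk => ?_⟩
      · simp only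
        split_ifs with h5
        · exact h3 k h5
        · exact hi
      · rcases Nat.lt_or_ge k n with h5 | h5
        · have h6 : k ≤ n := by omega
          have h7 : k + 1 ≤ n := by omega
          simp only [h6, h7, if_true]
          exact h4 k h5
        · have h6 : k = n := by omega
          subst h6
          have h7 : ¬ (k + 1 ≤ k) := by omega
          simp only [le_refl, if_true, h7, if_false]
          rw [h2]
          exact hj

/-- The key step: an odd cycle without internal delocalizing triple. -/
theorem bad_cycle {W : Finset A} {v : A} {x : A → Bool} {τ : A → ℕ}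
    (hxv : x v = false) (hval : Val P W x v)
    (hpred : ∀ i ∈ W, i ≠ v → ∃ j, Pr P W v x τ j i)
    {p : A} (hp : p ∈ W) {s₀ : Bool} (harc : Arc P s₀ p v) :
    ∃ (n : ℕ) (C : Cycle P n), C.IsOdd ∧ ∀ u v₁ v₂, u ∈ C.V → ¬ C.Deloc u v₁ v₂ := by
  obtain ⟨n, c, h0, hn, hW, hc⟩ := exists_path hpred (τ p) p hp rfl
  have hmono : ∀ k l, k < l → l ≤ n → τ (c k) < τ (c l) := by
    intro k l hkl
    induction l with
    | zero => exact absurd hkl (Nat.not_lt_zero k)
    | succ l ih =>
      intro hl
      have h1 := (hc l (by omega)).2.2.2.2.1
      rcases Nat.lt_or_ge k l with h | h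
      · exact (ih h (by omega)).trans h1
      · have : k = l := by omega
        subst this
        exact h1
  have hinj : Function.Injective fun k : Fin (n + 1) => c k := by
    intro a b hab
    simp only at hab
    rcases lt_trichotomy a b with h | h | h
    · have := hmono a b h (by omega)
      rw [hab] at this
      exact absurd this (lt_irrefl _)
    · exact h
    · have := hmono b a h (by omega)
      rw [hab] at this
      exact absurd this (lt_irrefl _)
  let s : Fin (n + 1) → Bool := fun k => if (k : ℕ) < n then (x (c k) == x (c (k + 1))) else x p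
  have hxp : x p = s₀ := hval.2 p hp s₀ harc
  have hsucc : ∀ k : Fin (n + 1), (k : ℕ) < n → ((k + 1 : Fin (n + 1)) : ℕ) = k + 1 := by
    intro k hk
    rw [Fin.val_add_one]
    rw [if_neg]
    intro h
    rw [h] at hk
    simp at hk
  have hlast : ∀ k : Fin (n + 1), ¬ (k : ℕ) < n → k + 1 = 0 ∧ (k : ℕ) = n := by
    intro k hk
    have h1 : (k : ℕ) = n := by omega
    have h2 : k = Fin.last n := Fin.ext h1
    rw [h2]
    exact ⟨Fin.last_add_one n, rfl⟩
  let C : Cycle P n :=
    { c := fun k => c k
      s := s
      inj := hinj
      arc := by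
        intro k
        by_cases hk : (k : ℕ) < n
        · have e1 : s k = (x (c k) == x (c (k + 1))) := if_pos hk
          rw [e1, hsucc k hk]
          exact (hc k hk).2.2.2.1
        · have e1 : s k = x p := if_neg hk
          obtain ⟨h1, h2⟩ := hlast k hk
          rw [e1, h1, h2, hn, hxp]
          simpa [h0] using harc }
  have key : ∀ a b : Fin (n + 1), ∀ s', Arc P s' (c a) (c b) → ¬ C.E s' (c a) (c b) →
      x (c a) = s' := by
    intro a b s' hab hE
    by_contra hne
    rcases Nat.eq_zero_or_pos (b : ℕ) with hb | hb
    · rw [hb, h0] at hab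
      exact hne (hval.2 _ (hW a (by omega)) s' hab)
    · obtain ⟨b', hb'⟩ : ∃ b', (b : ℕ) = b' + 1 := ⟨b - 1, by omega⟩
      have hb'n : b' < n := by omega
      obtain ⟨_, _, _, _, _, h5⟩ := hc b' hb'n
      rw [hb'] at hab
      obtain ⟨h6, h7, h8⟩ := h5 _ (hW a (by omega)) s' hab hne
      have h9 : (a : ℕ) = b' := by
        rcases lt_trichotomy (a : ℕ) b' with h | h | h
        · have := hmono a b' h (by omega)
          omega
        · exact h
        · rcases Nat.lt_or_ge (a : ℕ) (b' + 1) with h' | h'
          · omega
          · rcases Nat.eq_or_lt_of_le h' with h'' | h''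
            · rw [← h''] at h7
              exact absurd h7 (lt_irrefl _)
            · have := hmono (b' + 1) a h'' (by omega)
              omega
      apply hE
      refine ⟨a, rfl, ?_, ?_⟩
      · show c ((a + 1 : Fin (n + 1)) : ℕ) = c b
        rw [hsucc a (by omega), h9, hb']
      · show s a = s'
        have e1 : s a = (x (c a) == x (c (a + 1))) := if_pos (by omega)
        rw [e1, h8, h9]
  refine ⟨n, C, ?_, ?_⟩
  · show Odd (univ.filter fun i => s i = false).card
    rw [card_filter, Fin.sum_univ_castSucc]
    have e1 : ∑ i : Fin n, (if s i.castSucc = false then 1 else 0) =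
        ∑ k ∈ range n, if (x (c k) == x (c (k + 1))) = false then 1 else 0 := by
      rw [← Fin.sum_univ_eq_sum_range (fun k => if (x (c k) == x (c (k + 1))) = false then 1 else 0)]
      refine sum_congr rfl fun i _ => ?_
      have e2 : s i.castSucc = (x (c i) == x (c (i + 1))) := if_pos i.2
      rw [e2]
    have e3 : s (Fin.last n) = x p := if_neg (by simp)
    rw [e1, e3]
    have h1 : Odd (∑ k ∈ range n, if (x (c k) == x (c (k + 1))) = false then 1 else 0) ↔
        x (c 0) ≠ x (c n) := parity (fun k => x (c k)) n
    rw [h0, hn, hxv] at h1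
    rcases hxp' : x p
    · rw [hxp'] at h1
      simp only [ne_eq, not_true_eq_false, iff_false] at h1
      rw [if_pos rfl]
      exact (Nat.not_odd_iff_even.1 h1).add_one
    · rw [hxp'] at h1
      simpa using h1.2 (by simp)
  · rintro u v₁ v₂ ⟨a, rfl⟩ ⟨_, ⟨b, rfl⟩, ⟨d, rfl⟩, ⟨h1, h2⟩, ⟨h3, h4⟩⟩
    have h5 := key a b true h1 h2
    have h6 := key a d false h3 h4
    rw [h5] at h6
    exact absurd h6 (by simp)

/-- the elimination order -/
def T (P : Set (Rule A)) (W : Finset A) (v : A) (x : A → Bool) : ℕ → Set A
  | 0 => {v}
  | k + 1 => T P W v x k ∪ {i | i ∈ W ∧ ((x i = true ∧ ∃ j ∈ T P W v x k, ∃ s, Arc P s j i) ∨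
      (x i = false ∧ ∀ j ∈ W, ∀ s, Arc P s j i → x j ≠ s → j ∈ T P W v x k))}

theorem exists_fp (hcyc : ∀ (n : ℕ) (C : Cycle P n), C.IsOdd →
    ∃ u v₁ v₂, u ∈ C.V ∧ C.Deloc u v₁ v₂) (W : Finset A) : ∃ x, FP P W x := by
  induction W using Finset.strongInduction with
  | _ W IH =>
    by_cases hC : ∃ B : Finset A, B ⊆ W ∧ B.Nonempty ∧ ∃ a : A → Bool, ∀ i ∈ B, Just P W B a i
    · obtain ⟨B, hBW, hne, a, ha⟩ := hC
      obtain ⟨x, _, hx⟩ := ext IH ∅ _ B a hBW (empty_subset _) hne rfl fun i hi _ => ha i hi
      exact ⟨x, fun i hi => hx i hi (notMem_empty i)⟩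
    · rcases W.eq_empty_or_nonempty with rfl | ⟨v, hv⟩
      · exact ⟨fun _ => false, fun i hi => absurd hi (notMem_empty i)⟩
      · obtain ⟨x, hx1, hx2⟩ := ext IH {v} _ {v} (fun _ => false) (singleton_subset_iff.2 hv)
          subset_rfl (singleton_nonempty v) rfl fun i hi hi' => absurd hi hi'
        have hxv : x v = false := hx1 v (mem_singleton_self v)
        have hst : ∀ i ∈ W, i ≠ v → (x i = true ↔ Val P W x i) := fun i hi hiv =>
          hx2 i hi (by rw [mem_singleton]; exact hiv)
        by_cases hval : Val P W x v
        swap
        · refine ⟨x, fun i hi => ?_⟩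
          by_cases hiv : i = v
          · subst hiv
            rw [hxv]
            exact ⟨fun h => absurd h (by simp), fun h => absurd h hval⟩
          · exact hst i hi hiv
        · exfalso
          have hnc : ∀ B : Finset A, B ⊆ W → B.Nonempty → ∀ a : A → Bool,
              ∃ i ∈ B, ¬ Just P W B a i := by
            intro B h1 h2 a
            by_contra h3
            push Not at h3
            exact hC ⟨B, h1, h2, a, h3⟩
          have hmonoT : ∀ k l, k ≤ l → T P W v x k ⊆ T P W v x l := by
            intro k l hkl
            induction l with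
            | zero =>
              have : k = 0 := by omega
              subst this
              exact subset_rfl
            | succ l ih =>
              rcases Nat.lt_or_ge k (l + 1) with h | h
              · exact (ih (by omega)).trans Set.subset_union_left
              · have : k = l + 1 := by omega
                subst this
                exact subset_rfl
          -- everything is reached
          have hall : ∀ i ∈ W, ∃ k, i ∈ T P W v x k := by
            by_contra hcon
            push Not at hcon
            obtain ⟨i₀, hi₀, hi₀'⟩ := hcon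
            classical
            let B := W.filter fun i => ∀ k, i ∉ T P W v x k
            obtain ⟨i, hiB, hi⟩ := hnc B (filter_subset _ _) ⟨i₀, mem_filter.2 ⟨hi₀, hi₀'⟩⟩ x
            obtain ⟨hiW, hiT⟩ := mem_filter.1 hiB
            have hiv : i ≠ v := by
              rintro rfl
              exact hiT 0 rfl
            apply hi
            rcases hxi : x i
            · right
              refine ⟨hxi, ?_⟩
              by_contra hno
              push Not at hno
              obtain ⟨hrule, hno⟩ := hno
              have h3 : ∀ j ∈ W, ∀ s, Arc P s j i → x j ≠ s → ∃ k, j ∈ T P W v x k := by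
                intro j hj s hs hjs
                by_contra h4
                push Not at h4
                exact hjs (hno j (mem_filter.2 ⟨hj, h4⟩) s hs)
              let f : A → ℕ := fun j => if h : ∃ k, j ∈ T P W v x k then Nat.find h else 0
              have h5 : ∀ j ∈ W, (∃ k, j ∈ T P W v x k) → j ∈ T P W v x (W.sup f) := by
                intro j hj hk
                have h6 : f j = Nat.find hk := dif_pos hk
                have h7 : f j ≤ W.sup f := le_sup hj
                rw [h6] at h7
                exact hmonoT _ _ h7 (Nat.find_spec hk)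
              apply hiT (W.sup f + 1)
              right
              exact ⟨hiW, Or.inr ⟨hxi, fun j hj s hs hjs => h5 j hj (h3 j hj s hs hjs)⟩⟩
            · left
              have h3 := (hst i hiW hiv).1 hxi
              refine ⟨hxi, h3.1, fun j hj s hs => ⟨?_, h3.2 j hj s hs⟩⟩
              refine mem_filter.2 ⟨hj, fun k hk => ?_⟩
              apply hiT (k + 1)
              right
              exact ⟨hiW, Or.inl ⟨hxi, j, hk, s, hs⟩⟩
          -- the rank
          let τ : A → ℕ := fun i => sInf {k | i ∈ T P W v x k}
          have t1 : ∀ i ∈ W, i ∈ T P W v x (τ i) := fun i hi => Nat.sInf_mem (hall i hi)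
          have t2 : ∀ i k, i ∈ T P W v x k → τ i ≤ k := fun i k hk => Nat.sInf_le hk
          have tsub : ∀ k, ∀ i ∈ T P W v x k, i ∈ W := by
            intro k
            induction k with
            | zero => rintro i rfl; exact hv
            | succ k ih =>
              rintro i (h | h)
              · exact ih i h
              · exact h.1
          have hpred : ∀ i ∈ W, i ≠ v → ∃ j, Pr P W v x τ j i := by
            intro i hi hiv
            have h1 := t1 i hi
            rcases hk : τ i with _ | k
            · rw [hk] at h1
              exact absurd h1 hiv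
            · rw [hk] at h1
              rcases h1 with h1 | ⟨_, ⟨hxi, j, hj, s, hs⟩ | ⟨hxi, h1⟩⟩
              · have := t2 i k h1
                omega
              · have hjW := tsub k j hj
                have h3 := (hst i hi hiv).1 hxi
                have h4 := h3.2 j hjW s hs
                have h5 := t2 j k hj
                refine ⟨j, hjW, hi, hiv, ?_, by omega, fun u hu s' hs' hne => ?_⟩
                · rw [hxi]
                  simpa [h4] using hs
                · exact absurd (h3.2 u hu s' hs') hne
              · -- a false literal of minimal rank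
                have h3 : ∃ j ∈ W, ∃ s, Arc P s j i ∧ x j ≠ s := by
                  by_contra hno
                  push Not at hno
                  have h4 : ¬ Val P W x i := fun h => by
                    have := (hst i hi hiv).2 h
                    rw [hxi] at this
                    exact absurd this (by simp)
                  have h5 : ¬ HasRule P i := fun h => h4 ⟨h, hno⟩
                  obtain ⟨i', hi', hi''⟩ := hnc {i} (singleton_subset_iff.2 hi)
                    (singleton_nonempty i) x
                  rw [mem_singleton] at hi'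
                  subst hi'
                  exact hi'' (Or.inr ⟨hxi, Or.inl h5⟩)
                classical
                let F := W.filter fun j => ∃ s, Arc P s j i ∧ x j ≠ s
                have hF : F.Nonempty := by
                  obtain ⟨j, hj, h4⟩ := h3
                  exact ⟨j, mem_filter.2 ⟨hj, h4⟩⟩
                obtain ⟨j, hjF, hjmin⟩ := exists_min_image F τ hF
                obtain ⟨hjW, s, hs, hjs⟩ := mem_filter.1 hjF
                have h5 := t2 j k (h1 j hjW s hs hjs)
                have h6 : ∀ (b : Bool) (s : Bool), b ≠ s → s = (b == false) := by decide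
                refine ⟨j, hjW, hi, hiv, ?_, by omega, fun u hu s' hs' hne => ⟨?_, ?_, ?_⟩⟩
                · rw [hxi, ← h6 _ _ hjs]
                  exact hs
                · exact hjmin u (mem_filter.2 ⟨hu, s', hs', hne⟩)
                · have := t2 u k (h1 u hu s' hs' hne)
                  omega
                · rw [hxi]
                  exact h6 _ _ hne
          -- a predecessor of `v`
          have hp : ∃ p ∈ W, ∃ s, Arc P s p v := by
            by_contra hno
            push Not at hno
            obtain ⟨i, hi, hi'⟩ := hnc {v} (singleton_subset_iff.2 hv) (singleton_nonempty v)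
              fun _ => true
            rw [mem_singleton] at hi
            subst hi
            exact hi' (Or.inl ⟨rfl, hval.1, fun j hj s hs => absurd hs (hno j hj s)⟩)
          obtain ⟨p, hp, s, hs⟩ := hp
          obtain ⟨n, C, hodd, hno⟩ := bad_cycle hxv hval hpred hp hs
          obtain ⟨u, v₁, v₂, hu, hd⟩ := hcyc n C hodd
          exact hno u v₁ v₂ hu hd

end network

/-- atoms whose positive dependencies are well founded -/
inductive WF {A : Type} (P : Set (Rule A)) : A → Prop
  | mk (v : A) (h : ∀ r ∈ P, r.head = v → ∀ a ∈ r.pos, WF P a) : WF P v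

/-- **Theorem.** Let `P` be a uni-rule program over a finite set of atoms such that every odd cycle of
its atom dependency graph has an internal delocalizing triple. Then `P` has a stable model. -/
theorem result (A : Type) [Fintype A] (P : Set (Rule A)) (hP : UniRule P)
    (h : ∀ (n : ℕ) (C : Cycle P n), C.IsOdd → ∃ u v₁ v₂, u ∈ C.V ∧ C.Deloc u v₁ v₂) :
    ∃ M : Set A, Stable P M := by
  classical
  let W : Finset A := univ.filter fun v => WF P v
  have hW : ∀ v, v ∈ W ↔ WF P v := fun v => by simp [W]
  obtain ⟨x, hx⟩ := exists_fp h W
  refine ⟨{v | WF P v ∧ x v = true}, ?_, ?_⟩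
  · intro r hr hneg hpos
    have h1 : WF P r.head := by
      refine WF.mk _ fun r' hr' he a ha => ?_
      have := hP r' hr' r hr he
      subst this
      exact (hpos a ha).1
    refine ⟨h1, (hx _ ((hW _).2 h1)).2 ⟨⟨r, hr, rfl⟩, fun j hj s hs => ?_⟩⟩
    obtain ⟨r', hr', he, hm⟩ := hs
    have := hP r' hr' r hr he
    subst this
    cases s with
    | true => exact (hpos j hm).2
    | false =>
      by_contra hne
      have h2 : x j = true := by
        rcases hxj : x j
        · exact absurd hxj hne
        · rfl
      exact hneg j hm ⟨(hW j).1 hj, h2⟩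
  · intro X hX v hv
    obtain ⟨hwf, hxv⟩ := hv
    induction hwf with
    | mk v hv ih =>
      have h1 := (hx v ((hW v).2 (WF.mk v hv))).1 hxv
      obtain ⟨⟨r, hr, he⟩, h2⟩ := h1
      subst he
      refine hX r hr (fun b hb hbM => ?_) fun a ha => ?_
      · have h3 := h2 b ((hW b).2 hbM.1) false ⟨r, hr, rfl, hb⟩
        rw [hbM.2] at h3
        exact absurd h3 (by simp)
      · have h3 := h2 a ((hW a).2 (hv r hr rfl a ha)) true ⟨r, hr, rfl, ha⟩
        exact ih r hr rfl a ha h3

end Pool.Agent.Results.MP_d24a2a_lc.StableModel
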